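import Pool.Agent.helper36.MP.SpecP

/-! mp:LEA -/

set_option autoImplicit false

open Complex Metric Set Filter Topology MeasureTheory

noncomputable section

namespace MPS

theorem LEA_om (n : ℕ) (hn : n ≠ 0) : om n ^ n = 1 := by
  unfold om
  rw [← Complex.exp_nat_mul]
  have hn' : (n : ℂ) ≠ 0 := by exact_mod_cast hn
  rw [mul_div_cancel₀ _ hn', Complex.exp_two_pi_mul_I]

theorem LEA_BB {k : ℕ} [NeZero k] (b g : ZMod k → ℂ) (F : ℂ → ℂ) (Ω : Set ℂ) (hF : DifferentiableOn ℂ F Ω)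
    (h : ∀ w ∈ Ω, ∀ m, F w ≠ b m) : DifferentiableOn ℂ (fun w => BB b g (F w)) Ω := by
  unfold BB
  refine DifferentiableOn.fun_sum fun i _ => ?_
  have h1 : DifferentiableOn ℂ (fun w => F w - b i) Ω := hF.sub (differentiableOn_const _)
  have h2 : ∀ w ∈ Ω, F w - b i ≠ 0 := fun w hw => sub_ne_zero.2 (h w hw i)
  exact ((differentiableOn_const _).div (h1.pow 2) fun w hw => pow_ne_zero 2 (h2 w hw)).add
    ((differentiableOn_const _).div h1 h2)

theorem LEA_er {k : ℕ} [NeZero k] (n : ℕ) (c : ℂ) (b g : ZMod k → ℂ) (F : ℂ → ℂ) (Ω : Set ℂ)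
    (hF : DifferentiableOn ℂ F Ω)
    (h : ∀ w ∈ Ω, ∀ m, F w ≠ b m) (hc : ∀ w ∈ Ω, F w ≠ c) :
    DifferentiableOn ℂ (fun w => er n c b g (F w)) Ω := by
  unfold er
  refine DifferentiableOn.add (DifferentiableOn.fun_sum fun i _ => ?_) ?_
  · exact (differentiableOn_const _).div (hF.sub (differentiableOn_const _))
      fun w hw => sub_ne_zero.2 (h w hw (i + 1))
  · exact (differentiableOn_const _).div (hF.sub (differentiableOn_const _))
      fun w hw => sub_ne_zero.2 (hc w hw)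

theorem LEA : LEA_stmt := by
  intro n k _ c b g G Ω Q hn hcyc hO hL
  have hn0 : n ≠ 0 := by omega
  have h1 : ∀ q ≤ Q, ∀ w ∈ Ω, ∀ m, G q w ≠ b m := by
    intro q
    induction q with
    | zero => intro _ w hw m; exact hL.nat0.av w hw m
    | succ q ih =>
      intro hq w hw m he
      refine ih (by omega) w hw (m + 1) ?_
      rw [← (hL.rel q (by omega) w hw).1, he, hcyc.step]
  have h2 : ∀ q < Q, ∀ w ∈ Ω, ∀ (j : ℕ) (m : ZMod k), om n ^ j * G (q + 1) w ≠ b m := by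
    intro q hq w hw j m he
    refine h1 q hq.le w hw (m + 1) ?_
    rw [← (hL.rel q hq w hw).1, ← hcyc.step, ← he, mul_pow, ← pow_mul, mul_comm j n, pow_mul, LEA_om n hn0,
      one_pow, one_mul]
  have h3 : ∀ q < Q, ∀ w ∈ Ω, G q w ≠ c := by
    intro q hq w hw he
    obtain ⟨ha, hb⟩ := hL.rel q hq w hw
    rw [he] at ha
    have h4 : G (q + 1) w ^ n = 0 := by linear_combination ha
    exact hb (eq_zero_of_pow_eq_zero h4)
  have hd : ∀ q ≤ Q, DifferentiableOn ℂ (fun w => deriv (G q) w ^ 2) Ω := fun q hq =>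
    ((hL.diff q hq).deriv hO).pow 2
  refine ⟨h1, h2, h3, fun q hq => ?_, fun q hq j => ?_, fun q hq => ?_⟩
  · exact (hd q hq).mul (LEA_BB b g (G q) Ω (hL.diff q hq) (h1 q hq))
  · exact ((hd (q + 1) (by omega)).const_mul ((om n ^ j) ^ 2)).mul
      (LEA_BB b g (fun w => om n ^ j * G (q + 1) w) Ω ((hL.diff (q + 1) (by omega)).const_mul _)
        fun w hw m => h2 q hq w hw j m)
  · exact (hd q hq.le).mul (LEA_er n c b g (G q) Ω (hL.diff q hq.le) (h1 q hq.le) (h3 q hq))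

end MPS
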